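import Pool.Agent.Q64.BP.All

/-!
# MP_784f1f_an, Q1: DISPROOF, for every dimension `N = n + 1 ≥ 1` and every `T > 0`

For every `n` and `T > 0` there are a measurable `μ ≥ 1`, integrable on `Q_T`, and `Φ ∈ X_μ`, not
zero, with `∂ₜΦ + μ ΔΦ = 0` a.e. in `Q_T` and `Φ(T,·) = 0`.

`Φ` depends on `t` and one space variable only and is obtained by convex integration (staircase
laminates): `∂ₜΦ` and `∂ₓ²Φ` have opposite signs with `|∂ₜΦ| > |∂ₓ²Φ| > 1/2` a.e., and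
`μ = |∂ₜΦ| / |∂ₓ²Φ|` and `|∂ₜΦ| |∂ₓ²Φ|` are integrable.
-/

open MeasureTheory Filter Topology Set
open scoped ENNReal NNReal ContDiff

namespace Pool.Agent.Results.MP_784f1f_an.NonuniqueBackwardParabolic

/-- `ℝ^N`, `N = n + 1`; functions on the torus `𝕋^N` are functions on `ℝ^N` which are `1`-periodic in
every variable -/
abbrev V (n : ℕ) := Fin (n + 1) → ℝ

/-- the unit cube, a fundamental domain of the torus -/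
def cube (n : ℕ) : Set (V n) := {x | ∀ i, x i ∈ Ico (0 : ℝ) 1}

/-- `Q_T = (0,T) × 𝕋^N` -/
def QT (T : ℝ) (n : ℕ) : Set (ℝ × V n) := Ioo 0 T ×ˢ cube n

/-- `1`-periodic in all the space variables -/
def Per {n : ℕ} (Φ : ℝ × V n → ℝ) : Prop := ∀ (t : ℝ) (x : V n) (k : Fin (n + 1) → ℤ),
  Φ (t, fun i => x i + k i) = Φ (t, x)

/-- smooth test functions on `(0,T) × 𝕋^N` with compact support -/
def IsTest {n : ℕ} (T : ℝ) (φ : ℝ × V n → ℝ) : Prop :=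
  ContDiff ℝ ∞ φ ∧ Per φ ∧ ∃ a b : ℝ, 0 < a ∧ b < T ∧ ∀ t x, t ∉ Icc a b → φ (t, x) = 0

/-- `P = ∂ₜ Φ` in the sense of distributions on `Q_T` -/
def WeakT {n : ℕ} (T : ℝ) (Φ P : ℝ × V n → ℝ) : Prop :=
  IntegrableOn Φ (QT T n) ∧ IntegrableOn P (QT T n) ∧ ∀ φ : ℝ × V n → ℝ, IsTest T φ →
    ∫ p in QT T n, Φ p * fderiv ℝ φ p (1, 0) = -∫ p in QT T n, P p * φ p

/-- `P = ∂_i Φ` in the sense of distributions on `Q_T` -/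
def WeakX {n : ℕ} (T : ℝ) (i : Fin (n + 1)) (Φ P : ℝ × V n → ℝ) : Prop :=
  IntegrableOn Φ (QT T n) ∧ IntegrableOn P (QT T n) ∧ ∀ φ : ℝ × V n → ℝ, IsTest T φ →
    ∫ p in QT T n, Φ p * fderiv ℝ φ p (0, Pi.single i 1) = -∫ p in QT T n, P p * φ p

/-- `Φ ∈ X_μ`, with the distributional derivatives `Φt = ∂ₜΦ`, `D i = ∂_i Φ`, `H i j = ∂_j ∂_i Φ`
(so that `ΔΦ = ∑ i, H i i`) -/
structure InX {n : ℕ} (T : ℝ) (μ Φ Φt : ℝ × V n → ℝ) (D : Fin (n + 1) → ℝ × V n → ℝ)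
    (H : Fin (n + 1) → Fin (n + 1) → ℝ × V n → ℝ) : Prop where
  per : Per Φ
  weakt : WeakT T Φ Φt
  weakx : ∀ i, WeakX T i Φ (D i)
  weakxx : ∀ i j, WeakX T j (D i) (H i j)
  /-- `L^∞(0,T;H¹)` -/
  linf : ∃ C : ℝ, ∀ᵐ t : ℝ, t ∈ Ioo 0 T →
    ∫⁻ x in cube n, ENNReal.ofReal (Φ (t, x) ^ 2 + ∑ i, D i (t, x) ^ 2) ≤ ENNReal.ofReal C
  /-- `L²(0,T;H²)` -/
  l2 : ∫⁻ p in QT T n, ENNReal.ofReal (Φ p ^ 2 + ∑ i, D i p ^ 2 + ∑ i, ∑ j, H i j p ^ 2) < ⊤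
  /-- `C⁰([0,T];L²)`: every `Φ(t,·)`, `t ∈ [0,T]`, is in `L²`, and -/
  memL2 : ∀ t ∈ Icc 0 T, AEStronglyMeasurable (fun x => Φ (t, x)) (volume.restrict (cube n)) ∧
    ∫⁻ x in cube n, ENNReal.ofReal (Φ (t, x) ^ 2) < ⊤
  /-- `t ↦ Φ(t,·)` is continuous on `[0,T]` with values in `L²` -/
  cont : ∀ t ∈ Icc 0 T, Tendsto (fun s => ∫⁻ x in cube n, ENNReal.ofReal ((Φ (s, x) - Φ (t, x)) ^ 2))
    (𝓝[Icc 0 T] t) (𝓝 0)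
  /-- `μ^(-1/2) ∂ₜΦ ∈ L²(Q_T)` -/
  wt : ∫⁻ p in QT T n, ENNReal.ofReal (Φt p ^ 2 / μ p) < ⊤
  /-- `μ^(1/2) ΔΦ ∈ L²(Q_T)` -/
  wx : ∫⁻ p in QT T n, ENNReal.ofReal (μ p * (∑ i, H i i p) ^ 2) < ⊤

/-- Q1 is false for every `N = n + 1 ≥ 1` and every `T > 0`. -/
theorem result : ∀ (n : ℕ) (T : ℝ), 0 < T →
    ∃ (μ Φ Φt : ℝ × V n → ℝ) (D : Fin (n + 1) → ℝ × V n → ℝ)
      (H : Fin (n + 1) → Fin (n + 1) → ℝ × V n → ℝ),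
      Measurable μ ∧ Per μ ∧ IntegrableOn μ (QT T n) ∧ (∀ p, 1 ≤ μ p) ∧
      InX T μ Φ Φt D H ∧
      (∀ᵐ p ∂(volume.restrict (QT T n)), Φt p + μ p * ∑ i, H i i p = 0) ∧
      (∀ x, Φ (T, x) = 0) ∧
      ¬ (∀ᵐ p ∂(volume.restrict (QT T n)), Φ p = 0) := by
  intro n T hT
  obtain ⟨μ, Φ, Φt, D, H, h1, h2, h3, h4, h5, h6, h7, h8⟩ := Pool.Agent.Q64.BP.t_ALL n T hT
  exact ⟨μ, Φ, Φt, D, H, h1, h2, h3, h4,
    ⟨h5.per, h5.weakt, h5.weakx, h5.weakxx, h5.linf, h5.l2, h5.memL2, h5.cont, h5.wt, h5.wx⟩,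
    h6, h7, h8⟩

end Pool.Agent.Results.MP_784f1f_an.NonuniqueBackwardParabolic
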